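import Pool.Agent.Lib.helper21.Weih
import Pool.Agent.Lib.helper21.Bushy

set_option autoImplicit false

/-! Perfect kernels answer analytic questions. -/

namespace Pool.Agent.H.MP_a7e1fe_lc

open Filter Pool.Agent.Lib.helper21 PR Wh Encodable

attribute [local irreducible] Primrec Computable

/-- the tree with characteristic function `t` -/
def Tr (t : ℕ → ℕ) : Set (List ℕ) := {σ | t (encode σ) = 1}
def Cl (S : Set (List ℕ)) : Prop := ∀ σ ∈ S, ∀ ρ, ρ <+: σ → ρ ∈ S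
def IsTr (t : ℕ → ℕ) : Prop := (∀ n, t n ≤ 1) ∧ Cl (Tr t)
def Perf (S : Set (List ℕ)) : Prop :=
  Cl S ∧ ∀ σ ∈ S, ∃ a ∈ S, ∃ b ∈ S, σ <+: a ∧ σ <+: b ∧ ¬ a <+: b ∧ ¬ b <+: a
/-- the largest perfect subtree -/
def Ker (T : Set (List ℕ)) : Set (List ℕ) := ⋃₀ {S | S ⊆ T ∧ Perf S}
def body (S : Set (List ℕ)) : Set (ℕ → ℕ) := {x | ∀ k, pr x k ∈ S}
def PK : Pb := fun t => {s | IsTr t ∧ IsTr s ∧ Tr s = Ker (Tr t)}
def PKN : Pb := fun t => {s | IsTr t ∧ IsTr s ∧ body (Tr s) = body (Ker (Tr t))}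
def lim : Pb := fun p => {y | ∀ n, ∀ᶠ m in atTop, p (Nat.pair m n) = y n}
def comp (f g : Pb) : Pb := fun p => {y | (∀ x ∈ g p, (f x).Nonempty) ∧ ∃ x ∈ g p, y ∈ f x}

def dc (n : ℕ) : List ℕ := Denumerable.ofNat (List ℕ) n
@[simp] theorem dc_enc (σ : List ℕ) : dc (encode σ) = σ := Denumerable.ofNat_encode σ
@[simp] theorem enc_dc (n : ℕ) : encode (dc n) = n := Denumerable.encode_ofNat n
@[fun_prop] theorem p_dc {α : Type} [Primcodable α] {m : α → ℕ} (h : Primrec m) :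
    Primrec fun a => dc (m a) := p_ofNat h
theorem dc_len (n : ℕ) : (dc n).length ≤ n := (length_le_encode _).trans (enc_dc n).le

theorem enc_take : ∀ (l : List ℕ) (i : ℕ), encode (l.take i) ≤ encode l
  | _, 0 => by simp
  | [], _ + 1 => by simp
  | a :: l, i + 1 => by
    simp only [List.take_succ_cons, encode_list_cons, Nat.succ_le_succ_iff]
    exact (enc_take l i).eq_or_lt.elim (fun e => e ▸ le_rfl) fun e => (Nat.pair_lt_pair_right _ e).le

theorem ker_perf (T : Set (List ℕ)) : Perf (Ker T) :=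
  ⟨fun σ ⟨S, h, k⟩ ρ e => ⟨S, h, h.2.1 σ k ρ e⟩, fun σ ⟨S, h, k⟩ =>
    let ⟨a, a1, b, b1, e⟩ := h.2.2 σ k; ⟨a, ⟨S, h, a1⟩, b, ⟨S, h, b1⟩, e⟩⟩

theorem pr_take (x : ℕ → ℕ) {k m : ℕ} (h : k ≤ m) : (pr x m).take k = pr x k := by
  simp [pr, ← List.map_take, List.take_range, min_eq_left h]

theorem path {S : Set (List ℕ)} (h : Perf S) {σ : List ℕ} (hσ : σ ∈ S) :
    ∃ x ∈ body S, pr x σ.length = σ := by
  have : ∀ a : S, ∃ b : S, a.1 <+: b.1 ∧ a.1.length < b.1.length := fun a => by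
    obtain ⟨b, b1, c, -, k1, k2, k3, -⟩ := h.2 a a.2
    exact ⟨⟨b, b1⟩, k1, k1.length_le.lt_of_ne fun e => k3 (k1.eq_of_length e ▸ k2)⟩
  choose f f1 f2 using this
  have l : ∀ n, n ≤ (f^[n] ⟨σ, hσ⟩).1.length := fun n => by
    induction n with
    | zero => exact Nat.zero_le _
    | succ n ih => rw [Function.iterate_succ_apply']; exact ih.trans_lt (f2 _)
  obtain ⟨x, -, hx⟩ := chain (fun n => (f^[n] ⟨σ, hσ⟩).1)
    (fun n => by rw [Function.iterate_succ_apply']; exact f1 _) l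
  have e : ∀ n, pr x (f^[n] ⟨σ, hσ⟩).1.length = (f^[n] ⟨σ, hσ⟩).1 := fun n =>
    eq_pr fun i hi => (hx n i hi).symm
  exact ⟨x, fun k => h.1 _ (f^[k] ⟨σ, hσ⟩).2 _ (by
    rw [← e k, ← pr_take x (l k)]; exact List.take_prefix _ _), e 0⟩

theorem loc_op (F : (ℕ → ℕ) → ℕ → ℕ) (u : ℕ → ℕ) (hu : Primrec u)
    (hF : Primrec fun z : List ℕ × ℕ => F (z.1.getD · 0) z.2)
    (l : ∀ x y n, (∀ i < u n, x i = y i) → F x n = F y n) :
    ∃ W, REPred W ∧ ∀ x, Maps W x (F x) := by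
  refine ⟨fun z => z.1.length = u z.2.1 ∧ F (z.1.getD · 0) z.2.1 = z.2.2,
    RE.re (r_prim (p_dand (by fun_prop) (p_eq (p_comp
      (g := fun z : List ℕ × ℕ × ℕ => (z.1, z.2.1)) hF (by fun_prop)) (by fun_prop)))),
    fun x n v => ?_⟩
  simp only [pr_len, exists_eq_left]
  rw [l _ x n fun i => pr_getD]

theorem tree (B : List ℕ × List ℕ × ℕ → Prop) (hB : REPred B) : ∃ W, REPred W ∧ ∀ p, ∃ t,
    Maps W p t ∧ (PK t).Nonempty ∧
      ∀ o ∈ PK t, ∀ j, (o (encode [j]) = 1 ↔ ∃ z, ∀ k, ¬ B (pr p k, pr z k, j)) := by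
  classical
  obtain ⟨N, h1, h2, h3, h4⟩ := re_bool hB
  let F : (ℕ → ℕ) → ℕ → ℕ := fun p n => if ∃ k < (dc n).length, N (pr p k,
    ((dc n).tail.map (· / 2)).take k, (dc n).headD 0) (dc n).length = true then 0 else 1
  obtain ⟨W, w1, w2⟩ := loc_op F id .id (by unfold F pr; fun_prop) fun x y n e => by
    refine if_congr (exists_congr fun k => and_congr_right fun hk => ?_) rfl rfl
    rw [pr_congr fun i hi => e i ((hi.trans hk).trans_le (dc_len n))]
  refine ⟨W, w1, fun p => ⟨_, w2 p, ?_⟩⟩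
  have m : ∀ j s, j :: s ∈ Tr (F p) ↔ ∀ k ≤ s.length,
      ¬ N (pr p k, (s.map (· / 2)).take k, j) (s.length + 1) = true := fun j s => by
    simp [Tr, F, -encode_list_cons]
  have m0 : [] ∈ Tr (F p) := by simp [Tr, F, -encode_list_nil]
  have c : IsTr (F p) := by
    refine ⟨fun n => by simp only [F]; split_ifs <;> simp, ?_⟩
    rintro _ hσ (_ | ⟨j, s⟩) ⟨τ, rfl⟩
    · exact m0
    · refine (m j s).2 fun k hk e => (m j (s ++ τ)).1 hσ k (by simp; omega) ?_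
      rw [List.map_append, List.take_append_of_le_length (by simpa)]
      exact h3 _ _ _ (by simp) e
  have k0 : Tr (fun n => if dc n ∈ Ker (Tr (F p)) then 1 else 0) = Ker (Tr (F p)) :=
    Set.ext fun σ => by simp [Tr]
  refine ⟨⟨_, c, ⟨fun n => by split_ifs <;> simp, by rw [k0]; exact (ker_perf _).1⟩, k0⟩,
    fun o ho j => (Set.ext_iff.1 ho.2.2 [j]).trans ⟨fun h => ?_, fun ⟨z, hz⟩ => ?_⟩⟩
  · obtain ⟨x, x1, x2⟩ := path (ker_perf _) h
    refine ⟨fun i => x (i + 1) / 2, fun k b => ?_⟩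
    obtain ⟨u, hu⟩ := h4 _ b
    obtain ⟨S, s1, s2⟩ := x1 (k + u + 1)
    have e : pr x (k + u + 1) = j :: pr (fun i => x (i + 1)) (k + u) := by
      rw [pr, List.range_succ_eq_map, List.map_cons, List.map_map]
      exact congrArg₂ _ (by simpa [pr] using x2) rfl
    refine (m j _).1 (e ▸ s1.1 s2) k (by simp) (h3 _ u _ (by simp; omega) ?_)
    rwa [pr, pr, List.map_map, ← pr, ← pr, pr_take _ (Nat.le_add_right _ _)]
  · let S : Set (List ℕ) := {σ | σ = [] ∨ ∃ s, σ = j :: s ∧ s.map (· / 2) = pr z s.length}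
    have a : ∀ s b, b < 2 → s.map (· / 2) = pr z s.length → j :: (s ++ [2 * z s.length + b]) ∈ S :=
      fun s b hb e => .inr ⟨_, rfl, by
        simp only [pr, List.length_append, List.length_singleton, List.range_succ,
          List.map_append, List.map_singleton] at e ⊢
        rw [e]; congr 2; omega⟩
    have a' : ∀ (s : List ℕ) (b b' : ℕ), b ≠ b' → ¬ j :: (s ++ [b]) <+: j :: (s ++ [b']) :=
      fun s b b' ne e => ne (by simpa using e.eq_of_length (by simp))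
    refine ⟨S, ⟨?_, ?_, ?_⟩, .inr ⟨[], rfl, rfl⟩⟩
    · rintro _ (rfl | ⟨s, rfl, e⟩)
      · exact m0
      · exact (m j s).2 fun k hk b => hz k (by rw [← pr_take z hk, ← e]; exact h2 _ _ b)
    · rintro _ (rfl | ⟨s, rfl, e⟩) ρ hρ
      · exact .inl (List.prefix_nil.1 hρ)
      · cases ρ with
        | nil => exact .inl rfl
        | cons i ρ =>
          obtain ⟨rfl, k⟩ := List.cons_prefix_cons.1 hρ
          refine .inr ⟨ρ, rfl, ?_⟩
          rw [← pr_take z k.length_le, ← e, ← List.map_take, ← List.prefix_iff_eq_take.1 k]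
    · rintro _ (rfl | ⟨s, rfl, e⟩)
      · exact ⟨_, a [] 0 two_pos rfl, _, a [] 1 one_lt_two rfl, List.nil_prefix, List.nil_prefix,
          a' _ _ _ (by omega), a' _ _ _ (by omega)⟩
      · exact ⟨_, a s 0 two_pos e, _, a s 1 one_lt_two e, by simp, by simp,
          a' _ _ _ (by omega), a' _ _ _ (by omega)⟩

def pv (D : ℕ → ℕ) (n : ℕ) : ℕ := if n = 0 then 0 else D (n - 1)

theorem srch (E : (ℕ → ℕ) → ℕ → ℕ → ℕ → Bool) (u : ℕ → ℕ → ℕ)
    (hu : Primrec fun z : ℕ × ℕ => u z.1 z.2)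
    (hE : Primrec fun z : List ℕ × ℕ × ℕ × ℕ => E (z.1.getD · 0) z.2.1 z.2.2.1 z.2.2.2)
    (l : ∀ x y a n d, (∀ i < u n d, x i = y i) → E x a n d = E y a n d) :
    ∃ W, REPred W ∧ ∀ o D, (∀ n, E o (pv D n) n (D n) = true ∧
      ∀ d < D n, E o (pv D n) n d = false) → Maps W o D := by
  obtain ⟨E', h1, h2⟩ : ∃ E' : List ℕ × ℕ × ℕ × ℕ → Bool, Primrec E' ∧
    ∀ ω a n d, E' (ω, a, n, d) = E (ω.getD · 0) a n d := ⟨_, hE, fun _ _ _ _ => rfl⟩
  obtain ⟨u', g1, g2⟩ : ∃ u' : ℕ × ℕ → ℕ, Primrec u' ∧ ∀ n d, u' (n, d) = u n d :=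
    ⟨_, hu, fun _ _ => rfl⟩
  refine ⟨fun z => ∃ L : List ℕ, L.getD z.2.1 0 = z.2.2 ∧ ∀ i ≤ z.2.1,
    E' (z.1, pv (L.getD · 0) i, i, L.getD i 0) = true ∧ (∀ d < L.getD i 0,
      E' (z.1, pv (L.getD · 0) i, i, d) = false) ∧ ∀ d ≤ L.getD i 0, u' (i, d) ≤ z.1.length,
    RE.re (by unfold pv; fun_prop), fun o D h n v => ⟨fun ⟨k, L, k1, k2⟩ => ?_, fun e => ?_⟩⟩
  · simp only [h2, g2, pr_len] at k1 k2
    have : ∀ i ≤ n, D i = L.getD i 0 := fun i => by
      induction i using Nat.strong_induction_on with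
      | _ i ih =>
        intro hi
        obtain ⟨a1, a2, a3⟩ := k2 i hi
        have e : pv (L.getD · 0) i = pv D i := by
          unfold pv; split_ifs
          exacts [rfl, (ih _ (by omega) (by omega)).symm]
        have q : ∀ d ≤ L.getD i 0, E ((pr o k).getD · 0) (pv D i) i d = E o (pv D i) i d :=
          fun d hd => l _ _ _ _ _ fun j hj => pr_getD (hj.trans_le (a3 d hd))
        rw [e] at a1 a2
        refine le_antisymm (le_of_not_gt fun c => ?_) (le_of_not_gt fun c => ?_)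
        · rw [q _ le_rfl, (h i).2 _ c] at a1
          exact Bool.false_ne_true a1
        · exact Bool.false_ne_true ((a2 _ c).symm.trans ((q _ c.le).trans (h i).1))
    rw [this n le_rfl, k1]
  · obtain ⟨k, hk⟩ := (((Set.finite_Iic n).biUnion fun i _ => (Set.finite_Iic (D i)).image
      (u i))).bddAbove
    have b : ∀ i ≤ n, ∀ d ≤ D i, u i d ≤ k := fun i hi d hd =>
      hk (Set.mem_biUnion hi ⟨d, hd, rfl⟩)
    refine ⟨k, pr D (n + 1), (pr_getD n.lt_succ_self).trans e, fun i (hi : i ≤ n) => ?_⟩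
    have e : pv ((pr D (n + 1)).getD · 0) i = pv D i := by
      unfold pv; split_ifs
      exacts [rfl, pr_getD (by omega)]
    have q : ∀ d ≤ D i, E ((pr o k).getD · 0) (pv D i) i d = E o (pv D i) i d :=
      fun d hd => l _ _ _ _ _ fun j hj => pr_getD (hj.trans_le (b i hi d hd))
    simp only [h2, g2, pr_len, e, pr_getD (Nat.lt_succ_of_le hi)]
    exact ⟨(q _ le_rfl).trans (h i).1, fun d hd => (q d hd.le).trans ((h i).2 d hd), b i hi⟩

theorem stable (Z : (ℕ → ℕ) → ℕ → ℕ) (h1 : ∀ h i, ∃ k, ∀ h', (∀ j < k, h' j = h j) → Z h' i = Z h i)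
    (h2 : ∀ h, (lim (Z h)).Nonempty) (L : List ℕ) (n : ℕ) : ∃ L' m v, L <+: L' ∧ n < L'.length ∧
      ∀ h, pr h L'.length = L' → ∀ m' ≥ m, Z h (Nat.pair m' n) = v := by
  have c : ∀ i, Continuous (Z · i) := fun i => ((IsLocallyConstant.iff_exists_open _).2 fun h =>
    let ⟨k, hk⟩ := h1 h i
    ⟨_, PiNat.isOpen_cylinder _ h k, PiNat.self_mem_cylinder h k, hk⟩).continuous
  obtain ⟨h, a1, a2⟩ := (dense_iUnion_interior_of_closed
    (f := fun z : ℕ × ℕ => ⋂ m' ≥ z.1, {h | Z h (Nat.pair m' n) = z.2})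
    (fun z => isClosed_biInter fun m' _ => isClosed_eq (c _) continuous_const)
    (Set.eq_univ_of_forall fun h => by
      obtain ⟨y, hy⟩ := h2 h
      obtain ⟨m, hm⟩ := eventually_atTop.1 (hy n)
      exact Set.mem_iUnion.2 ⟨(m, y n), Set.mem_iInter₂.2 hm⟩)).inter_open_nonempty _
    (PiNat.isOpen_cylinder _ (L.getD · 0) L.length) ⟨_, PiNat.self_mem_cylinder _ _⟩
  obtain ⟨⟨m, v⟩, a2⟩ := Set.mem_iUnion.1 a2
  obtain ⟨_, ⟨x, k, rfl⟩, b1, b2⟩ := (PiNat.isTopologicalBasis_cylinders _).exists_subset_of_mem_open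
    a2 isOpen_interior
  refine ⟨pr h (k + L.length + n + 1), m, v, ?_, by rw [pr_len]; omega, fun h' e m' hm => ?_⟩
  · have := List.take_prefix L.length (pr h (k + L.length + n + 1))
    rwa [pr_take h (by omega), eq_pr a1] at this
  · refine Set.mem_iInter₂.1 (interior_subset (b2 fun i hi => ?_)) m' hm
    rw [pr_len] at e
    rw [← b1 i hi, ← pr_getD (p := h') (k := k + L.length + n + 1) (by omega), e,
      pr_getD (by omega)]

end Pool.Agent.H.MP_a7e1fe_lc
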