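import Pool.Agent.H.MP_a7e1fe_lc.A

set_option autoImplicit false

/-! Forcing a name of the perfect kernel. -/

namespace Pool.Agent.H.MP_a7e1fe_lc

open Filter Pool.Agent.Lib.helper21 PR Wh Encodable

attribute [local irreducible] Primrec Computable

def sn (a h : ℕ → ℕ) (n : ℕ) : ℕ := if ∀ i ≤ (dc n).length, a (encode ((dc n).take i)) ≠ 0 ∨
  (dc n).length ≤ h (encode ((dc n).take i)) then 1 else 0

theorem sn_congr {a h a' h' : ℕ → ℕ} {n : ℕ} (e : ∀ i ≤ n,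
    (a i ≠ 0 ∨ (dc n).length ≤ h i ↔ a' i ≠ 0 ∨ (dc n).length ≤ h' i)) : sn a h n = sn a' h' n :=
  if_congr (forall₂_congr fun i _ => e _ ((enc_take _ i).trans (enc_dc n).le)) rfl rfl

theorem sn_valid {t a : ℕ → ℕ} (ht : IsTr t) (ha : ∀ i, a i ≠ 0 ↔ dc i ∈ Ker (Tr t)) (h : ℕ → ℕ) :
    sn a h ∈ PKN t := by
  have m : ∀ σ, σ ∈ Tr (sn a h) ↔ ∀ i ≤ σ.length, σ.take i ∈ Ker (Tr t) ∨
    σ.length ≤ h (encode (σ.take i)) := fun σ => by
      simp only [Tr, sn, Set.mem_setOf_eq, dc_enc, ite_eq_left_iff, zero_ne_one, imp_false, not_not]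
      exact forall₂_congr fun i _ => or_congr_left (by rw [ha, dc_enc]; rfl)
  refine ⟨ht, ⟨fun n => by unfold sn; split_ifs <;> simp, ?_⟩, Set.ext fun x =>
    ⟨fun hx k => by_contra fun c => ?_, fun hx k => (m _).2 fun i hi => .inl ?_⟩⟩
  · rintro _ hσ ρ ⟨τ, rfl⟩
    refine (m _).2 fun i hi => ?_
    have := (m _).1 hσ i (by simp; omega)
    rw [List.take_append_of_le_length hi] at this
    exact this.imp_right fun e => le_trans (by simp) e
  · have := (m _).1 (hx (k + h (encode (pr x k)) + 1)) k (by rw [pr_len]; omega)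
    rw [pr_take x (by omega), pr_len] at this
    exact this.elim c (by omega)
  · rw [pr_take x (by simpa using hi)]
    exact hx i

def dL (d : ℕ) : List ℕ := dc d.unpair.1
def dR (d : ℕ) : List ℕ := dc d.unpair.2.unpair.1
def dm (d : ℕ) : ℕ := d.unpair.2.unpair.2.unpair.1
def dv (d : ℕ) : ℕ := d.unpair.2.unpair.2.unpair.2

def B1 (A : Ax) (p z : ℕ → ℕ) (k : ℕ) : Prop := ∃ n < k, z n ≠ 0 ∧ ((∃ i ≤ k, A (pr p i, n, 0)) ∨
  (∃ i ≤ (dc n).length, z (encode ((dc n).take i)) = 0) ∨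
  ¬ (dc n <+: dc (z n - 1).unpair.1 ∧ dc n <+: dc (z n - 1).unpair.2 ∧
    ¬ dc (z n - 1).unpair.1 <+: dc (z n - 1).unpair.2 ∧
    ¬ dc (z n - 1).unpair.2 <+: dc (z n - 1).unpair.1) ∨
  ((z n - 1).unpair.1 < k ∧ z (z n - 1).unpair.1 = 0) ∨
  ((z n - 1).unpair.2 < k ∧ z (z n - 1).unpair.2 = 0))

def B2 (z : ℕ → ℕ) (k j : ℕ) : Prop :=
  ∃ i ∈ (if j % 2 = 0 then [j / 2] else dR (j / 2).unpair.2), i < k ∧ z i = 0

def B3 (W : Ax) (p z : ℕ → ℕ) (k j : ℕ) : Prop := j % 2 = 1 ∧ ∃ (L : List ℕ) (m v i : ℕ), i ≤ k ∧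
  dL (j / 2).unpair.2 <+: L ∧ dm (j / 2).unpair.2 ≤ m ∧ v ≠ dv (j / 2).unpair.2 ∧
    W (pr (jn p (sn z (L.getD · 0))) i, Nat.pair m (j / 2).unpair.1, v)

variable {A W : List ℕ × ℕ × ℕ → Prop} {p z p' z' t : ℕ → ℕ} {k j : ℕ}

theorem B.congr (e : ∀ i < k, p i = p' i) (e' : ∀ i < k, z i = z' i)
    (h : B1 A p z k ∨ B2 z k j ∨ B3 W p z k j) : B1 A p' z' k ∨ B2 z' k j ∨ B3 W p' z' k j := by
  refine h.imp ?_ (Or.imp ?_ ?_)
  · rintro ⟨n, h1, h2, h3⟩
    refine ⟨n, h1, e' n h1 ▸ ⟨h2, h3.imp (fun ⟨i, a, b⟩ => ⟨i, a, ?_⟩) (Or.imp (fun ⟨i, a, b⟩ =>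
      ⟨i, a, ?_⟩) (Or.imp_right (Or.imp (fun ⟨a, b⟩ => ⟨a, e' _ a ▸ b⟩)
        fun ⟨a, b⟩ => ⟨a, e' _ a ▸ b⟩)))⟩⟩
    · rwa [← pr_congr fun j hj => e j (hj.trans_le a)]
    · rwa [← e' _ (((enc_take _ i).trans (enc_dc n).le).trans_lt h1)]
  · exact fun ⟨i, a, b, c⟩ => ⟨i, a, b, e' i b ▸ c⟩
  · rintro ⟨h0, L, m, v, i, h1, h2, h3, h4, h5⟩
    refine ⟨h0, L, m, v, i, h1, h2, h3, h4, ?_⟩
    rwa [← pr_congr (p := jn p (sn z (L.getD · 0))) fun j hj => by
      simp only [jn, e (j / 2) (by omega)]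
      rw [sn_congr fun l hl => by rw [e' l (by omega)]]]

theorem B.re (hA : REPred A) (hW : REPred W) : REPred fun y : List ℕ × List ℕ × ℕ =>
    B1 A (y.1.getD · 0) (y.2.1.getD · 0) y.2.1.length ∨ B2 (y.2.1.getD · 0) y.2.1.length y.2.2 ∨
      B3 W (y.1.getD · 0) (y.2.1.getD · 0) y.2.1.length y.2.2 := by
  have := RE.un hA
  have := RE.un hW
  refine RE.re (r_or ?_ (r_or ?_ ?_))
  · refine RE.of_eq (p := fun y : List ℕ × List ℕ × ℕ => ∃ n, n < y.2.1.length ∧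
      y.2.1.getD n 0 ≠ 0 ∧ ((∃ i, i ≤ y.2.1.length ∧ A (pr (y.1.getD · 0) i, n, 0)) ∨ _)) ?_
        fun _ => Iff.rfl
    unfold pr; fun_prop
  · unfold B2 dR; fun_prop
  · unfold B3 dL dm dv pr jn sn; fun_prop

theorem B1.ker (hA : Maps A p t) (ht : IsTr t) (h : ∀ k, ¬ B1 A p z k) (n : ℕ) (hn : z n ≠ 0) :
    dc n ∈ Ker (Tr t) := by
  refine ⟨{σ | z (encode σ) ≠ 0}, ⟨fun σ hσ => by_contra fun c => ?_, fun σ hσ ρ e c => ?_,
    fun σ hσ => ?_⟩, by simpa using hn⟩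
  · obtain ⟨i, hi⟩ := (hA (encode σ) 0).2 (by have := ht.1 (encode σ); simp [Tr] at c; omega)
    exact h (encode σ + i + 1) ⟨_, by omega, hσ, .inl ⟨i, by omega, hi⟩⟩
  · exact h _ ⟨_, Nat.lt_succ_self _, hσ, .inr (.inl ⟨ρ.length, by simpa using e.length_le,
      by rwa [dc_enc, ← List.prefix_iff_eq_take.1 e]⟩)⟩
  · have := h (encode σ + z (encode σ) + 1)
    simp only [B1, not_exists, not_and, not_or] at this
    obtain ⟨-, -, h3, h4, h5⟩ := this _ (by omega) hσ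
    have := Nat.unpair_left_le (z (encode σ) - 1)
    have := Nat.unpair_right_le (z (encode σ) - 1)
    refine ⟨_, ?_, _, ?_, by simpa using h3⟩
    exacts [by simpa using h4 (by omega), by simpa using h5 (by omega)]

theorem B1.canon (hA : Maps A p t) : ∃ z : ℕ → ℕ, (∀ i, z i ≠ 0 ↔ dc i ∈ Ker (Tr t)) ∧
    ∀ k, ¬ B1 A p z k := by
  classical
  choose! a a1 b b1 c using (ker_perf (Tr t)).2
  have e : ∀ i, (if dc i ∈ Ker (Tr t) then Nat.pair (encode (a (dc i))) (encode (b (dc i))) + 1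
    else 0) ≠ 0 ↔ dc i ∈ Ker (Tr t) := fun i => by split_ifs with h <;> simp [h]
  refine ⟨_, e, ?_⟩
  rintro k ⟨n, -, h1, h2⟩
  have h3 := (e n).1 h1
  simp only [if_pos h3, Nat.add_sub_cancel, Nat.unpair_pair, dc_enc, if_pos (a1 _ h3),
    if_pos (b1 _ h3)] at h2
  rcases h2 with ⟨i, -, h⟩ | ⟨i, -, h⟩ | h | h | h
  · obtain ⟨S, s1, s2⟩ := h3
    have := s1.1 s2
    simp [Tr, (hA n 0).1 ⟨i, h⟩] at this
  · simp [(ker_perf _).1 _ h3 _ (List.take_prefix i _)] at h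
  · exact h (c _ h3)
  · simp at h
  · simp at h

theorem main {f g : Pb} (hf : Le f lim) (hg : Le g PKN) : Le (comp f g) PK := by
  classical
  obtain ⟨A, A', a1, a2, a3⟩ := hg
  obtain ⟨C, C', c1, c2, c3⟩ := hf
  have oW := (op_id.ap a2).ap c1
  obtain ⟨T, t1, t2⟩ := tree _ (B.re a1 (r_pw oW.1).re)
  obtain ⟨W1, u1, v1⟩ := loc_op (fun o j => o (encode [j])) (fun j => encode [j] + 1)
    (by fun_prop) (by fun_prop) fun x y n e => e _ (Nat.lt_succ_self _)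
  obtain ⟨W2, u2, v2⟩ := srch (fun o a n d => cd (dL a <+: dL d ∧ n < (dL d).length ∧
    (∀ i < (dL d).length, (i ∈ dR d ↔ o (2 * i) = 1)) ∧ o (2 * Nat.pair n d + 1) = 1))
    (fun n d => 2 * Nat.pair n d + 2) (by fun_prop) (by unfold dL dR; fun_prop)
    fun x y a n d e => by
      rw [e _ (Nat.lt_succ_self _), propext (forall₂_congr fun i (hi : i < (dL d).length) => by
        rw [e (2 * i) (by
          have := (dc_len _).trans ((Nat.unpair_left_le d).trans (Nat.right_le_pair n d))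
          unfold dL at hi; omega)])]
  obtain ⟨W3, u3, v3⟩ := loc_op (fun x => sn (fun i => x (4 * i))
    fun i => (dL (x (2 * i + 1))).getD i 0) (fun n => 4 * n + 2) (by fun_prop)
    (by unfold sn dL; fun_prop) fun x y n e => sn_congr fun i hi => by
      rw [e (4 * i) (by omega), e (2 * i + 1) (by omega)]
  obtain ⟨W4, u4, v4⟩ := loc_op (fun D n => dv (D n)) (· + 1) (by fun_prop)
    (by unfold dv; fun_prop) fun x y n e => by rw [e n (Nat.lt_succ_self _)]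
  have o1 := (op_id.pj 1).ap u1
  have o2 := o1.ap u2
  refine .mk (op_id.ap t1) (((((op_id.pj 0).jn ((o1.jn o2).ap u3)).ap a2).jn (o2.ap u4)).ap c2)
    fun p ⟨_, hp, x0, hx0, _⟩ => ?_
  obtain ⟨t, b1, ⟨_, b2, -⟩, b3⟩ := a3 p ⟨x0, hx0⟩
  obtain ⟨t', d1, d2, d3⟩ := t2 p
  refine ⟨t', (is_gr p).ap d1, d2, fun o ho => ?_⟩
  set W : Ax := fun z => Ap C (Ap A' (fin z.1)) z.2.1 z.2.2
  have d4 : ∀ j, o (encode [j]) = 1 ↔ ∃ z, ∀ k, ¬ (B1 A p z k ∨ B2 z k j ∨ B3 W p z k j) :=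
    fun j => (d3 o ho j).trans (exists_congr fun z => forall_congr' fun k => not_congr (by
      simp only [pr_len]
      exact ⟨B.congr (fun i => pr_getD) fun i => pr_getD,
        B.congr (fun i h => (pr_getD h).symm) fun i h => (pr_getD h).symm⟩))
  obtain ⟨z0, e1, e2⟩ := B1.canon b1
  have e3 : ∀ i, o (encode [2 * i]) = 1 ↔ dc i ∈ Ker (Tr t) := fun i => (d4 _).trans
    ⟨fun ⟨z, hz⟩ => B1.ker b1 b2 (fun k c => hz k (.inl c)) i fun c =>
      hz (i + 1) (.inr (.inl ⟨i, by simp, i.lt_succ_self, c⟩)), fun h => ⟨z0, fun k c =>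
        c.elim (e2 k) fun c => c.elim (fun ⟨l, l1, _, l2⟩ => (e1 i).2 h (by simpa [l2] using
          (show l = i by simpa using l1) ▸ l2)) fun c => by have := c.1; omega⟩⟩
  choose X x1 x2 using fun h => b3 _ (sn_valid b2 e1 h)
  choose Z z1 z2 z3 using fun h => c3 _ (hp _ (x1 h))
  have z4 : ∀ h, Maps W (jn p (sn z0 h)) (Z h) := fun h n v =>
    (oW.ex _ n v).trans ((((is_gr _).ap (x2 h)).ap (z1 h)) n v)
  have z5 : ∀ h i, ∃ k, ∀ h', (∀ j < k, h' j = h j) → Z h' i = Z h i := fun h i => by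
    obtain ⟨k, hk⟩ := (z4 h i _).2 rfl
    refine ⟨k, fun h' e => (z4 h' i _).1 ⟨k, ?_⟩⟩
    rwa [pr_congr (q := jn p (sn z0 h)) fun j hj => by
      simp only [jn]; rw [sn_congr fun l hl => by rw [e l (by omega)]]]
  have e4 : ∀ n d, (∀ i < (dL d).length, (i ∈ dR d ↔ o (encode [2 * i]) = 1)) →
      o (encode [2 * Nat.pair n d + 1]) = 1 → ∀ h, pr h (dL d).length = dL d →
        ∀ m ≥ dm d, Z h (Nat.pair m n) = dv d := fun n d h1 h2 h h3 m hm => by
    obtain ⟨z, hz⟩ := (d4 _).1 h2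
    have q : (2 * Nat.pair n d + 1) / 2 = Nat.pair n d := by omega
    obtain ⟨k, hk⟩ := (z4 h (Nat.pair m n) _).2 rfl
    by_contra c
    refine hz k (.inr (.inr ⟨by omega, pr (fun i => if (dL d).length ≤ i ∧ z0 i ≠ 0 then k
      else h i) ((dL d).length + k), m, Z h (Nat.pair m n), k, le_rfl, ?_, ?_⟩))
    · rw [q, Nat.unpair_pair]
      have := List.take_prefix (dL d).length (pr (fun i => if (dL d).length ≤ i ∧ z0 i ≠ 0 then k
        else h i) ((dL d).length + k))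
      rwa [pr_take _ (by omega), pr_congr (q := h) fun i hi => if_neg (by omega), h3] at this
    · simp only [q, Nat.unpair_pair]
      refine ⟨hm, c, ?_⟩
      rwa [pr_congr (q := jn p (sn z0 h)) fun j hj => by
        simp only [jn]
        rw [sn_congr (a' := z0) (h' := h) fun l hl => ?_]
        have l1 := dc_len (j / 2)
        have l2 : z l ≠ 0 → z0 l ≠ 0 := fun c =>
          (e1 l).2 (B1.ker b1 b2 (fun k c => hz k (.inl c)) l c)
        rw [pr_getD (by omega)]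
        split_ifs with c
        · exact iff_of_true (.inr (by omega)) (.inl c.2)
        · refine or_congr_left ⟨l2, fun c' c'' => hz (l + 1) (.inr (.inl ⟨l, ?_, by omega, c''⟩))⟩
          rw [if_neg (by omega), q, Nat.unpair_pair]
          exact (h1 l (by_contra fun k => c ⟨by omega, c'⟩)).2 ((e3 l).2 ((e1 l).1 c'))]
  have ex : ∀ a n, ∃ d, cd (dL a <+: dL d ∧ n < (dL d).length ∧ (∀ i < (dL d).length,
      (i ∈ dR d ↔ o (encode [2 * i]) = 1)) ∧ o (encode [2 * Nat.pair n d + 1]) = 1) = true :=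
    fun a n => by
      obtain ⟨L, m, v, l1, l2, l3⟩ := stable Z z5 z2 (dL a) n
      let d := Nat.pair (encode L) (Nat.pair (encode ((List.range L.length).filter
        fun i => o (encode [2 * i]) = 1)) (Nat.pair m v))
      have q : (2 * Nat.pair n d + 1) / 2 = Nat.pair n d := by omega
      have q1 : dL d = L := by simp [d, dL]
      refine ⟨d, cd_true.2 ⟨q1 ▸ l1, q1 ▸ l2, fun i hi => by simpa [d, dR] using fun _ => q1 ▸ hi,
        (d4 _).2 ⟨z0, fun k c => c.elim (e2 k) fun c => c.elim ?_ ?_⟩⟩⟩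
      · rintro ⟨i, i1, -, i2⟩
        rw [if_neg (by omega), q, Nat.unpair_pair] at i1
        exact (e1 i).2 ((e3 i).1 (by simp [d, dR] at i1; simpa using i1.2)) i2
      · rintro ⟨-, L', m', v', i, -, ⟨τ, rfl⟩, i2, i3, i4⟩
        simp only [q, Nat.unpair_pair, q1] at i2 i3 i4
        refine i3 (((z4 _ _ _).1 ⟨i, i4⟩).symm.trans ((l3 _ (eq_pr fun j hj => ?_) m'
          (by simpa [d, dm] using i2)).trans (by simp [d, dv])))
        simp [List.getD_eq_getElem?_getD, List.getElem?_append_left hj]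
  let G : ℕ → ℕ := fun n => n.rec 0 fun n a => Nat.find (ex a n)
  have g0 : ∀ n, pv (fun n => G (n + 1)) n = G n := fun n => by cases n <;> rfl
  have g1 := fun n => cd_true.1 (Nat.find_spec (ex (G n) n))
  have g2 := v2 (fun j => o (encode [j])) (fun n => G (n + 1)) fun n => by
    rw [g0]
    exact ⟨Nat.find_spec (ex (G n) n), fun d hd => Bool.eq_false_iff.2 (Nat.find_min (ex (G n) n) hd)⟩
  obtain ⟨h, g3, g4⟩ := chain (fun n => dL (G n)) (fun n => (g1 n).1) fun n => by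
    cases n; exacts [Nat.zero_le _, (g1 _).2.1]
  obtain ⟨y, y1, y2⟩ := z3 h (fun n => dv (G (n + 1))) fun n => eventually_atTop.2
    ⟨_, e4 n _ (g1 n).2.2.1 (g1 n).2.2.2 h (eq_pr fun i hi => (g4 (n + 1) i hi).symm)⟩
  have i1 := (is_r p o).ap (v1 o)
  have i2 := i1.ap g2
  refine ⟨y, ⟨hp, _, x1 h, y1⟩, ((((is_l p o).jn ((i1.jn i2).ap (v3 _))).ap ?_).jn
    (i2.ap (v4 _))).ap y2⟩
  refine (congrArg (fun s => Maps A' (jn p s) (X h)) (funext fun n => sn_congr fun i _ =>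
    or_congr ?_ ?_)).mp (x2 h)
  · have := ho.2.1.1 (encode [2 * i])
    rw [e1, ← e3, jn, if_pos (by omega), show 4 * i / 2 = 2 * i by omega]
    omega
  · rw [jn, if_neg (by omega), show (2 * i + 1) / 2 = i by omega, g3]

end Pool.Agent.H.MP_a7e1fe_lc
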